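import Mathlib

/-!
A coherent family of finite-to-one functions indexed by a well-order all of whose
proper initial segments are countable.
-/

set_option autoImplicit false

namespace Pool.Agent.Lib.MP_db8e30_gt

open Set

variable {α : Type} [LinearOrder α]

/-- The one-step extension: a coherent family of finite-to-one functions on the proper initial
segments below `b` extends to `b`. -/
lemma step (hc : ∀ a : α, (Iio a).Countable) (b : α) (f : α → α → ℕ)
    (h1 : ∀ a, a < b → ∀ m, {x | x < a ∧ f a x ≤ m}.Finite)
    (h2 : ∀ a a', a < a' → a' < b → {x | x < a ∧ f a x ≠ f a' x}.Finite) :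
    ∃ g : α → ℕ, (∀ m, {x | x < b ∧ g x ≤ m}.Finite) ∧
      ∀ a, a < b → {x | x < a ∧ f a x ≠ g x}.Finite := by
  classical
  rcases (Iio b).eq_empty_or_nonempty with he | hne
  · refine ⟨fun _ => 0, fun m => ?_, fun a ha => ?_⟩
    · refine Set.Finite.subset Set.finite_empty ?_
      rintro x ⟨hx, -⟩
      rw [← he]
      exact hx
    · exact absurd (show a ∈ Iio b from ha) (by rw [he]; simp)
  · obtain ⟨s, hs⟩ := (hc b).exists_eq_range hne
    have hsb : ∀ k, s k < b := fun k => by
      have : s k ∈ Iio b := by rw [hs]; exact mem_range_self k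
      exact this
    have hsurj : ∀ x, x < b → ∃ k, s k = x := fun x hx => by
      have : x ∈ range s := by rw [← hs]; exact hx
      exact this
    -- coherence for arbitrary pairs below `b`
    have h2' : ∀ a a', a < b → a' < b → {x | x < a ∧ x < a' ∧ f a x ≠ f a' x}.Finite := by
      intro a a' ha ha'
      rcases lt_trichotomy a a' with h | h | h
      · exact (h2 a a' h ha').subset fun x hx => ⟨hx.1, hx.2.2⟩
      · subst h
        exact Set.Finite.subset Set.finite_empty fun x hx => (hx.2.2 rfl).elim
      · exact (h2 a' a h ha).subset fun x hx => ⟨hx.2.1, fun e => hx.2.2 e.symm⟩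
    let g : α → ℕ := fun x =>
      if h : ∃ k, x < s k then max (f (s (Nat.find h)) x) (Nat.find h) else 0
    refine ⟨g, fun m => ?_, fun a ha => ?_⟩
    · have hsub : {x | x < b ∧ g x ≤ m} ⊆
          {x | x < b ∧ ¬ ∃ k, x < s k} ∪
            ⋃ k ∈ Finset.range (m + 1), {x | x < s k ∧ f (s k) x ≤ m} := by
        rintro x ⟨hxb, hgx⟩
        by_cases h : ∃ k, x < s k
        · right
          have hg : g x = max (f (s (Nat.find h)) x) (Nat.find h) := by
            simp only [g, dif_pos h]
          rw [hg] at hgx
          have h3 : Nat.find h ≤ m := le_trans (le_max_right _ _) hgx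
          have h4 : f (s (Nat.find h)) x ≤ m := le_trans (le_max_left _ _) hgx
          simp only [mem_iUnion, Finset.mem_range]
          exact ⟨Nat.find h, Nat.lt_succ_of_le h3, Nat.find_spec h, h4⟩
        · left
          exact ⟨hxb, h⟩
      refine Set.Finite.subset (Set.Finite.union ?_ ?_) hsub
      · refine Set.Subsingleton.finite ?_
        rintro x ⟨hx, hx'⟩ y ⟨hy, hy'⟩
        rcases lt_trichotomy x y with h | h | h
        · obtain ⟨k, hk⟩ := hsurj y hy
          exact (hx' ⟨k, hk ▸ h⟩).elim
        · exact h
        · obtain ⟨k, hk⟩ := hsurj x hx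
          exact (hy' ⟨k, hk ▸ h⟩).elim
      · refine Set.Finite.biUnion (Finset.finite_toSet _) fun k _ => ?_
        exact h1 (s k) (hsb k) m
    · obtain ⟨j, hj⟩ := hsurj a ha
      have hsub : {x | x < a ∧ f a x ≠ g x} ⊆
          ⋃ k ∈ Finset.range (j + 1),
            ({x | x < s k ∧ f (s k) x ≤ k} ∪ {x | x < s k ∧ x < a ∧ f (s k) x ≠ f a x}) := by
        rintro x ⟨hxa, hne'⟩
        have h : ∃ k, x < s k := ⟨j, by rw [hj]; exact hxa⟩
        have hg : g x = max (f (s (Nat.find h)) x) (Nat.find h) := by
          simp only [g, dif_pos h]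
        have hle : Nat.find h ≤ j := Nat.find_min' h (by rw [hj]; exact hxa)
        simp only [mem_iUnion, Finset.mem_range]
        refine ⟨Nat.find h, Nat.lt_succ_of_le hle, ?_⟩
        by_cases hcase : f (s (Nat.find h)) x ≤ Nat.find h
        · left
          exact ⟨Nat.find_spec h, hcase⟩
        · right
          refine ⟨Nat.find_spec h, hxa, fun e => hne' ?_⟩
          rw [hg, max_eq_left (le_of_lt (not_le.mp hcase)), e]
      refine Set.Finite.subset ?_ hsub
      refine Set.Finite.biUnion (Finset.finite_toSet _) fun k _ => ?_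
      exact (h1 (s k) (hsb k) k).union (h2' (s k) a (hsb k) ha)

/-- The property that `g` is a finite-to-one function on `Iio b` coherent with the `e a`. -/
def Good (b : α) (f : ∀ a, a < b → α → ℕ) (g : α → ℕ) : Prop :=
  (∀ m, {x | x < b ∧ g x ≤ m}.Finite) ∧ ∀ (a) (h : a < b), {x | x < a ∧ f a h x ≠ g x}.Finite

open Classical in
/-- The coherent family, by well-founded recursion. -/
noncomputable def coh [WellFoundedLT α] : α → α → ℕ :=
  WellFounded.fix (r := (· < ·)) (C := fun _ => α → ℕ) wellFounded_lt
    (fun b ih => if h : ∃ g, Good b ih g then Classical.choose h else fun _ => 0)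

open Classical in
lemma coh_eq [WellFoundedLT α] (b : α) :
    coh b = if h : ∃ g, Good b (fun a _ => coh a) g then Classical.choose h
      else fun _ => 0 := by
  unfold coh
  rw [WellFounded.fix_eq]

lemma coh_good [WellFoundedLT α] (hc : ∀ a : α, (Iio a).Countable) (b : α) :
    Good b (fun a _ => coh a) (coh b) := by
  induction b using WellFoundedLT.induction with
  | ind b ih =>
    have hex : ∃ g, Good b (fun a _ => coh a) g := by
      obtain ⟨g, hg1, hg2⟩ := step hc b coh (fun a ha m => (ih a ha).1 m)
        (fun a a' haa' ha' => (ih a' ha').2 a haa')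
      exact ⟨g, hg1, hg2⟩
    rw [coh_eq b, dif_pos hex]
    exact Classical.choose_spec hex

/-- Existence of a coherent family of finite-to-one functions. -/
theorem exists_coherent [WellFoundedLT α] (hc : ∀ a : α, (Iio a).Countable) :
    ∃ e : α → α → ℕ, (∀ b m, {x | x < b ∧ e b x ≤ m}.Finite) ∧
      (∀ a b, a < b → {x | x < a ∧ e a x ≠ e b x}.Finite) :=
  ⟨coh, fun b m => (coh_good hc b).1 m, fun a b h => (coh_good hc b).2 a h⟩

end Pool.Agent.Lib.MP_db8e30_gt
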