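import Pool.Agent.Lib.MP_db8e30_gt.Space

/-!
The space of ultrafilters on `ω₁ × ℕ` containing a countable set is not normal.
-/

set_option autoImplicit false

namespace Pool.Agent.Lib.MP_db8e30_gt

open Set Filter Topology

section

variable {α : Type} [LinearOrder α]

/-- Countable subsets are strictly bounded when initial segments are countable and the order is
uncountable. -/
lemma exists_bound (hc : ∀ a : α, (Iio a).Countable) (hu : ¬ (Set.univ : Set α).Countable)
    {S : Set α} (hS : S.Countable) : ∃ b, ∀ a ∈ S, a < b := by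
  have h1 : (⋃ a ∈ S, Iic a).Countable := by
    refine hS.biUnion fun a _ => ?_
    have : Iic a = insert a (Iio a) := by
      ext x; simp [le_iff_lt_or_eq, or_comm]
    rw [this]
    exact (hc a).insert a
  by_contra hcon
  push Not at hcon
  refine hu (h1.mono fun b _ => ?_)
  obtain ⟨a, ha, hba⟩ := hcon b
  simp only [mem_iUnion]
  exact ⟨a, ha, hba⟩

/-- The strip below `b`. -/
def strip (b : α) : Set (α × ℕ) := {x | x.1 < b}

/-- The region under the graph of `e b`. -/
def under (e : α → α → ℕ) (b : α) : Set (α × ℕ) := {x | x.1 < b ∧ x.2 ≤ e b x.1}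

/-- The region over the graph of `e b`. -/
def above (e : α → α → ℕ) (b : α) : Set (α × ℕ) := {x | x.1 < b ∧ e b x.1 < x.2}

/-- Free ultrafilters containing `T b` for some `b`. -/
def half (T : α → Set (α × ℕ)) : Set (CU (α × ℕ)) :=
  {p | (∀ S : Set (α × ℕ), S.Finite → S ∉ p.1) ∧ ∃ b, T b ∈ p.1}

lemma strip_countable (hc : ∀ a : α, (Iio a).Countable) (b : α) : (strip b).Countable := by
  have : strip b = Iio b ×ˢ (Set.univ : Set ℕ) := by
    ext x; simp [strip]
  rw [this]
  exact (hc b).prod Set.countable_univ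

lemma exists_strip_mem (hc : ∀ a : α, (Iio a).Countable) (hu : ¬ (Set.univ : Set α).Countable)
    (p : CU (α × ℕ)) : ∃ b, strip b ∈ p.1 := by
  obtain ⟨A, hA, hAc⟩ := p.2
  obtain ⟨b, hb⟩ := exists_bound hc hu (hAc.image Prod.fst)
  exact ⟨b, Filter.mem_of_superset hA fun x hx => hb x.1 (mem_image_of_mem _ hx)⟩

variable {e : α → α → ℕ}

/-- The set where `under e a` and `above e b` overlap is finite. -/
lemma finite_inter
    (h2 : ∀ a b, a < b → {x | x < a ∧ e a x ≠ e b x}.Finite) (a b : α) :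
    (under e a ∩ above e b).Finite := by
  have h2' : {x | x < a ∧ x < b ∧ e a x ≠ e b x}.Finite := by
    rcases lt_trichotomy a b with h | h | h
    · exact (h2 a b h).subset fun x hx => ⟨hx.1, hx.2.2⟩
    · subst h
      exact Set.Finite.subset Set.finite_empty fun x hx => (hx.2.2 rfl).elim
    · exact (h2 b a h).subset fun x hx => ⟨hx.2.1, fun e' => hx.2.2 e'.symm⟩
  have hsub : under e a ∩ above e b ⊆
      ⋃ x ∈ {x | x < a ∧ x < b ∧ e a x ≠ e b x}, ({x} : Set α) ×ˢ Set.Iic (e a x) := by
    rintro ⟨x, n⟩ ⟨⟨hxa, hn⟩, ⟨hxb, hn'⟩⟩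
    simp only [mem_iUnion]
    refine ⟨x, ⟨hxa, hxb, ?_⟩, ?_⟩
    · intro heq
      simp only at hn hn'
      omega
    · exact ⟨rfl, hn⟩
  refine Set.Finite.subset (h2'.biUnion fun x _ => ?_) hsub
  exact (Set.finite_singleton x).prod (Set.finite_Iic _)

lemma disjoint_halves (h2 : ∀ a b, a < b → {x | x < a ∧ e a x ≠ e b x}.Finite) :
    Disjoint (half (under e)) (half (above e)) := by
  rw [Set.disjoint_left]
  rintro p ⟨hfree, a, ha⟩ ⟨-, b, hb⟩
  exact hfree _ (finite_inter h2 a b) (Filter.inter_mem ha hb)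

lemma strip_eq (b : α) : strip b = under e b ∪ above e b := by
  ext x
  simp only [strip, under, above, Set.mem_ofPred_eq, mem_union]
  constructor
  · intro h
    rcases le_or_gt x.2 (e b x.1) with h' | h'
    · exact Or.inl ⟨h, h'⟩
    · exact Or.inr ⟨h, h'⟩
  · rintro (h | h)
    · exact h.1
    · exact h.1

/-- If two families are complementary in the strips and have finite overlaps then the
corresponding halves are closed. -/
lemma isClosed_half (hc : ∀ a : α, (Iio a).Countable) (hu : ¬ (Set.univ : Set α).Countable)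
    (S T : α → Set (α × ℕ)) (hST : ∀ b, strip b = S b ∪ T b)
    (hfin : ∀ a b, (S a ∩ T b).Finite) : IsClosed (half S) := by
  rw [← isOpen_compl_iff, isOpen_iff_forall_mem_open]
  intro p hp
  by_cases hfree : ∀ F : Set (α × ℕ), F.Finite → F ∉ p.1
  · obtain ⟨b, hb⟩ := exists_strip_mem hc hu p
    rw [hST b, Ultrafilter.union_mem_iff] at hb
    have hTb : T b ∈ p.1 := by
      rcases hb with h | h
      · exact (hp ⟨hfree, b, h⟩).elim
      · exact h
    refine ⟨bas (T b), ?_, isOpen_bas _, hTb⟩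
    rintro q hq ⟨hqfree, a, ha⟩
    exact hqfree _ (hfin a b) (Filter.inter_mem ha hq)
  · push Not at hfree
    obtain ⟨F, hF, hFp⟩ := hfree
    refine ⟨bas F, ?_, isOpen_bas _, hFp⟩
    rintro q hq ⟨hqfree, -⟩
    exact hqfree F hF hq

/-- If the half given by `T` lies in an open set `U` then all but finitely many points of each
`T b` lie in `U`. -/
lemma finite_diff_of_half_subset (hc : ∀ a : α, (Iio a).Countable) {T : α → Set (α × ℕ)}
    (hT : ∀ b, T b ⊆ strip b) {U : Set (CU (α × ℕ))} (hU : IsOpen U) (hTU : half T ⊆ U) (b : α) :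
    (T b ∩ {i | pt i ∉ U}).Finite := by
  by_contra hinf
  obtain ⟨p, hp, hfree⟩ := exists_free (S := T b ∩ {i | pt i ∉ U}) hinf
  have hstrip : strip b ∈ p := Filter.mem_of_superset hp (inter_subset_left.trans (hT b))
  have hTb : T b ∈ p := Filter.mem_of_superset hp inter_subset_left
  let q : CU (α × ℕ) := ⟨p, strip b, hstrip, strip_countable hc b⟩
  have hqU : q ∈ U := hTU ⟨hfree, b, hTb⟩
  obtain ⟨A, -, hAq, hAU⟩ := exists_bas_subset hU hqU
  obtain ⟨i, hiA, hi⟩ := p.nonempty_of_mem (Filter.inter_mem hAq hp)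
  exact hi.2 (hAU (pt_mem_bas.mpr hiA))

theorem not_normal (hc : ∀ a : α, (Iio a).Countable) (hu : ¬ (Set.univ : Set α).Countable)
    (h1 : ∀ b m, {x | x < b ∧ e b x ≤ m}.Finite)
    (h2 : ∀ a b, a < b → {x | x < a ∧ e a x ≠ e b x}.Finite) :
    ¬ NormalSpace (CU (α × ℕ)) := by
  intro hN
  have hcl1 : IsClosed (half (under e)) :=
    isClosed_half hc hu (under e) (above e) strip_eq (finite_inter h2)
  have hcl2 : IsClosed (half (above e)) :=
    isClosed_half hc hu (above e) (under e) (fun b => by rw [strip_eq (e := e), union_comm])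
      (fun a b => by rw [inter_comm]; exact finite_inter h2 b a)
  obtain ⟨U, V, hU, hV, hFU, hFV, hUV⟩ := normal_separation hcl1 hcl2 (disjoint_halves h2)
  have hA : ∀ b, (under e b ∩ {i | pt i ∉ U}).Finite :=
    finite_diff_of_half_subset hc (fun b x hx => hx.1) hU hFU
  have hB : ∀ b, (above e b ∩ {i | pt i ∈ U}).Finite := fun b =>
    (finite_diff_of_half_subset hc (T := above e) (fun b x hx => hx.1) hV hFV b).subset
      fun i hi => ⟨hi.1, fun hiV => Set.disjoint_left.mp hUV hi.2 hiV⟩
  -- the columns of `{i | pt i ∈ U}` are bounded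
  have hcol : ∀ x : α, ∃ N : ℕ, ∀ n, pt (x, n) ∈ U → n ≤ N := by
    intro x
    obtain ⟨b, hb⟩ := exists_bound hc hu (Set.countable_singleton x)
    have hxb : x < b := hb x rfl
    have hfin : {n : ℕ | pt (x, n) ∈ U}.Finite := by
      have hsub : {n : ℕ | pt (x, n) ∈ U} ⊆
          Set.Iic (e b x) ∪ Prod.snd '' (above e b ∩ {i | pt i ∈ U}) := by
        intro n hn
        rcases le_or_gt n (e b x) with h | h
        · exact Or.inl h
        · exact Or.inr ⟨(x, n), ⟨⟨hxb, h⟩, hn⟩, rfl⟩
      exact ((Set.finite_Iic _).union ((hB b).image _)).subset hsub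
    obtain ⟨N, hN⟩ := hfin.bddAbove
    exact ⟨N, fun n hn => hN hn⟩
  choose N hN' using hcol
  -- some value of `N` is attained infinitely often
  obtain ⟨m, hm⟩ : ∃ m, (N ⁻¹' {m}).Infinite := by
    by_contra hcon
    push Not at hcon
    refine hu ?_
    have : (Set.univ : Set α) = ⋃ m, N ⁻¹' {m} := by
      ext x; simp
    rw [this]
    refine Set.countable_iUnion fun m => ?_
    exact (hcon m).countable
  let f : ℕ ↪ (N ⁻¹' {m} : Set α) := hm.natEmbedding
  let S : Set α := Set.range fun k => (f k : α)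
  have hSinf : S.Infinite :=
    Set.infinite_range_of_injective fun k l hkl => f.injective (Subtype.ext hkl)
  have hSN : ∀ x ∈ S, N x = m := by
    rintro x ⟨k, rfl⟩
    exact (f k).2
  obtain ⟨b, hb⟩ := exists_bound hc hu (Set.countable_range fun k => (f k : α) : S.Countable)
  have hfin1 : {x | x ∈ S ∧ e b x ≤ m}.Finite :=
    (h1 b m).subset fun x hx => ⟨hb x hx.1, hx.2⟩
  have hfin2 : {x | x ∈ S ∧ m < e b x}.Finite := by
    have hsub : (fun x : α => (x, m + 1)) '' {x | x ∈ S ∧ m < e b x} ⊆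
        under e b ∩ {i | pt i ∉ U} := by
      rintro _ ⟨x, ⟨hxS, hx⟩, rfl⟩
      refine ⟨⟨hb x hxS, hx⟩, fun hxU => ?_⟩
      have h3 := hN' x (m + 1) hxU
      rw [hSN x hxS] at h3
      omega
    refine Set.Finite.of_finite_image ((hA b).subset hsub) ?_
    intro x _ y _ hxy
    exact congrArg Prod.fst hxy
  refine hSinf ((hfin1.union hfin2).subset fun x hx => ?_)
  rcases le_or_gt (e b x) m with h | h
  · exact Or.inl ⟨hx, h⟩
  · exact Or.inr ⟨hx, h⟩

end

end Pool.Agent.Lib.MP_db8e30_gt
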