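import Pool.Agent.Lib.MP_db8e30_gt.Coherent

/-!
The space of those ultrafilters on a set `I` that contain a countable set, its base of the sets
`{p | A ∈ p}` with `A` countable, and its failure of normality for `I = ω₁ × ℕ`.
-/

set_option autoImplicit false

namespace Pool.Agent.Lib.MP_db8e30_gt

open Set Filter Topology

/-- The space of ultrafilters on `I` containing a countable set, a subspace of `βI`. -/
abbrev CU (I : Type) : Type := {p : Ultrafilter I // ∃ A ∈ p, A.Countable}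

variable {I : Type}

/-- The basic clopen set given by `A`. -/
def bas (A : Set I) : Set (CU I) := {p | A ∈ p.1}

lemma mem_bas {A : Set I} {p : CU I} : p ∈ bas A ↔ A ∈ p.1 := Iff.rfl

lemma isOpen_bas (A : Set I) : IsOpen (bas A) :=
  (ultrafilter_isOpen_basic A).preimage continuous_subtype_val

lemma isClosed_bas (A : Set I) : IsClosed (bas A) :=
  (ultrafilter_isClosed_basic A).preimage continuous_subtype_val

lemma isClopen_bas (A : Set I) : IsClopen (bas A) := ⟨isClosed_bas A, isOpen_bas A⟩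

/-- The isolated point given by `i`. -/
def pt (i : I) : CU I := ⟨pure i, {i}, by simp, Set.countable_singleton i⟩

lemma pt_mem_bas {A : Set I} {i : I} : pt i ∈ bas A ↔ i ∈ A := by
  simp [pt, bas]

/-- The base. -/
def base (I : Type) : Set (Set (CU I)) := {b | ∃ A : Set I, A.Countable ∧ b = bas A}

lemma exists_bas_subset {U : Set (CU I)} (hU : IsOpen U) {p : CU I} (hp : p ∈ U) :
    ∃ A : Set I, A.Countable ∧ A ∈ p.1 ∧ bas A ⊆ U := by
  obtain ⟨V, hV, rfl⟩ := isOpen_induced_iff.mp hU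
  obtain ⟨W, ⟨s, rfl⟩, hpW, hWV⟩ :=
    ultrafilterBasis_is_basis.exists_subset_of_mem_open (show p.1 ∈ V from hp) hV
  obtain ⟨A, hA, hAc⟩ := p.2
  refine ⟨A ∩ s, hAc.mono inter_subset_left, Filter.inter_mem hA hpW, ?_⟩
  intro q hq
  exact hWV (Filter.mem_of_superset hq inter_subset_right)

lemma isTopologicalBasis_base : TopologicalSpace.IsTopologicalBasis (base I) := by
  refine TopologicalSpace.isTopologicalBasis_of_isOpen_of_nhds ?_ ?_
  · rintro b ⟨A, -, rfl⟩
    exact isOpen_bas A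
  · intro p U hp hU
    obtain ⟨A, hAc, hAp, hAU⟩ := exists_bas_subset hU hp
    exact ⟨bas A, ⟨A, hAc, rfl⟩, hAp, hAU⟩

lemma disjoint_of_disjoint_bas {A B : Set I} (h : Disjoint (bas A) (bas B)) : Disjoint A B := by
  rw [Set.disjoint_left] at h ⊢
  intro i hiA hiB
  exact h (pt_mem_bas.mpr hiA) (pt_mem_bas.mpr hiB)

lemma disjoint_bas {A B : Set I} (h : Disjoint A B) : Disjoint (bas A) (bas B) := by
  rw [Set.disjoint_left]
  intro p hA hB
  have := Filter.inter_mem (show A ∈ (p.1 : Filter I) from hA) hB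
  rw [Set.disjoint_iff_inter_eq_empty.mp h] at this
  exact p.1.neBot.ne (Filter.empty_mem_iff_bot.mp this)

lemma separation (C D : Set (Set (CU I))) (hC : C ⊆ base I) (hD : D ⊆ base I)
    (hCc : C.Countable) (hCD : ∀ c ∈ C, ∀ d ∈ D, Disjoint c d) :
    ∃ b ∈ base I, (∀ c ∈ C, c ⊆ b) ∧ (∀ d ∈ D, Disjoint b d) := by
  choose! A hA using fun c (hc : c ∈ C) => hC hc
  refine ⟨bas (⋃ c ∈ C, A c), ⟨_, hCc.biUnion fun c hc => (hA c hc).1, rfl⟩, ?_, ?_⟩
  · intro c hc
    rw [(hA c hc).2]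
    intro p hp
    exact Filter.mem_of_superset hp (subset_biUnion_of_mem hc)
  · intro d hd
    obtain ⟨B, -, rfl⟩ := hD hd
    refine disjoint_bas ?_
    rw [Set.disjoint_iUnion₂_left]
    intro c hc
    refine disjoint_of_disjoint_bas ?_
    rw [← (hA c hc).2]
    exact hCD c hc _ hd

/-- The basic sets given by countable sets are compact. -/
lemma isCompact_bas {A : Set I} (hA : A.Countable) : IsCompact (bas A) := by
  have h : (Subtype.val '' bas A : Set (Ultrafilter I)) = {u : Ultrafilter I | A ∈ u} := by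
    ext u
    constructor
    · rintro ⟨p, hp, rfl⟩
      exact hp
    · intro hu
      exact ⟨⟨u, A, hu, hA⟩, hu, rfl⟩
  rw [Subtype.isCompact_iff, h]
  exact (ultrafilter_isClosed_basic A).isCompact

lemma cocompact [Nonempty I] :
    @IsCompact (CU I)
      (TopologicalSpace.generateFrom {U : Set (CU I) | ∃ b ∈ base I, U = (closure b)ᶜ})
      Set.univ := by
  rw [@isCompact_iff_ultrafilter_le_nhds]
  intro F _
  obtain ⟨x, hx⟩ : ∃ x : CU I, ∀ b ∈ base I, b ∈ F → x ∈ b := by
    by_cases h : ∃ b ∈ base I, b ∈ F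
    · obtain ⟨b, ⟨A, hA, rfl⟩, hbF⟩ := h
      obtain ⟨x, hx, hFx⟩ := isCompact_iff_ultrafilter_le_nhds.mp (isCompact_bas hA) F
        (Filter.le_principal_iff.mpr hbF)
      refine ⟨x, ?_⟩
      rintro b ⟨B, hB, rfl⟩ hBF
      by_contra hxB
      have h1 : (bas B)ᶜ ∈ 𝓝 x := (isClosed_bas B).isOpen_compl.mem_nhds hxB
      exact (Ultrafilter.compl_notMem_iff.mpr hBF) (hFx h1)
    · push Not at h
      exact ⟨pt (Classical.arbitrary I), fun b hb hbF => (h b hb hbF).elim⟩
  refine ⟨x, mem_univ x, ?_⟩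
  rw [TopologicalSpace.nhds_generateFrom]
  refine le_iInf₂ fun U hU => ?_
  obtain ⟨hxU, b, hb, rfl⟩ := hU
  rw [Filter.le_principal_iff]
  obtain ⟨B, hB, rfl⟩ := hb
  rw [(isClosed_bas B).closure_eq] at hxU ⊢
  by_contra hc
  exact hxU (hx (bas B) ⟨B, hB, rfl⟩ (Ultrafilter.compl_notMem_iff.mp hc))

/-- An infinite set belongs to a free ultrafilter. -/
lemma exists_free {S : Set I} (hS : S.Infinite) :
    ∃ p : Ultrafilter I, S ∈ p ∧ ∀ T : Set I, T.Finite → T ∉ p := by
  have hne : (Filter.cofinite ⊓ 𝓟 S : Filter I).NeBot := by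
    rw [Filter.inf_principal_neBot_iff]
    intro T hT
    by_contra hempty
    rw [Set.not_nonempty_iff_eq_empty] at hempty
    refine hS ((Filter.mem_cofinite.mp hT).subset ?_)
    intro x hxS hxT
    exact (Set.eq_empty_iff_forall_notMem.mp hempty x) ⟨hxT, hxS⟩
  refine ⟨Ultrafilter.of (Filter.cofinite ⊓ 𝓟 S), ?_, ?_⟩
  · exact Ultrafilter.of_le _ (Filter.mem_inf_of_right (Filter.mem_principal_self S))
  · intro T hT hTp
    have h1 : Tᶜ ∈ Ultrafilter.of (Filter.cofinite ⊓ 𝓟 S) :=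
      Ultrafilter.of_le _ (Filter.mem_inf_of_left (Filter.mem_cofinite.mpr (by simpa using hT)))
    exact (Ultrafilter.compl_notMem_iff.mpr hTp) h1

end Pool.Agent.Lib.MP_db8e30_gt
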